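import Pool.Agent.H121.MY.Iface

set_option autoImplicit false

open scoped BigOperators Topology
open Filter

namespace Pool.Agent.H333.MY

theorem rpow_dom {c s : ℝ} (hc : 0 ≤ c) (h1 : 1 / 2 ≤ s) (h2 : s ≤ 1) :
    c ^ s ≤ c ^ (1 / 2 : ℝ) + c ^ (1 : ℝ) := by
  rcases le_total c 1 with h | h
  · have h3 : c ^ s ≤ c ^ (1 / 2 : ℝ) := by
      rcases hc.eq_or_lt with h0 | h0
      · rw [← h0, Real.zero_rpow (by linarith : s ≠ 0), Real.zero_rpow (by norm_num)]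
      · exact Real.rpow_le_rpow_of_exponent_ge h0 h h1
    exact le_add_of_le_of_nonneg h3 (Real.rpow_nonneg hc _)
  · have h3 : c ^ s ≤ c ^ (1 : ℝ) := Real.rpow_le_rpow_of_exponent_le h h2
    exact le_add_of_nonneg_of_le (Real.rpow_nonneg hc _) h3

theorem sigY_core (a m : ℕ → ℝ) (ha : ∀ k, 0 ≤ a k) (hm : ∀ k, 0 ≤ m k)
    (hs : ∀ p : ℝ, 0 < p → Summable fun k => a k ^ p * m k) (b x : ℝ) (_hb : 0 ≤ b)
    (hx : b + ∑' k, a k * m k < x) :
    ∃ s : ℝ, 0 < s ∧ s < 1 ∧ b + ∑' k, a k ^ s * m k < x ^ s := by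
  have hev : ∀ᶠ s : ℝ in 𝓝[<] 1, 1 / 2 < s ∧ s < 1 := by
    have h1 : ∀ᶠ s : ℝ in 𝓝[<] 1, 1 / 2 < s := by
      apply mem_nhdsWithin_of_mem_nhds
      exact lt_mem_nhds (by norm_num)
    exact h1.and self_mem_nhdsWithin
  have hsum : Tendsto (fun s : ℝ => ∑' k, a k ^ s * m k) (𝓝[<] 1)
      (𝓝 (∑' k, a k ^ (1 : ℝ) * m k)) := by
    apply tendsto_tsum_of_dominated_convergence
      (bound := fun k => a k ^ (1 / 2 : ℝ) * m k + a k ^ (1 : ℝ) * m k)
    · exact (hs (1 / 2) (by norm_num)).add (hs 1 one_pos)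
    · intro q
      exact ((Real.continuousAt_const_rpow' (a := a q) (one_ne_zero)).tendsto.mono_left
        nhdsWithin_le_nhds).mul_const _
    · filter_upwards [hev] with s h q
      rw [Real.norm_of_nonneg (mul_nonneg (Real.rpow_nonneg (ha q) _) (hm q)), ← add_mul]
      exact mul_le_mul_of_nonneg_right (rpow_dom (ha q) h.1.le h.2.le) (hm q)
  have h3 : Tendsto (fun s : ℝ => x ^ s) (𝓝[<] 1) (𝓝 (x ^ (1 : ℝ))) :=
    (Real.continuousAt_const_rpow' (one_ne_zero)).tendsto.mono_left nhdsWithin_le_nhds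
  have h4 := hsum.const_add b
  simp only [Real.rpow_one] at h3 h4
  have h6 := h4.eventually_lt h3 hx
  obtain ⟨s, hs1, hs2⟩ := (h6.and hev).exists
  exact ⟨s, by linarith [hs2.1], hs2.2, hs1⟩


/-- MY-SIG -/
theorem sigY : Pool.Agent.H121.MY.S_sigY :=
  fun a m ha hm hs b x hb hx => sigY_core a m ha hm hs b x hb hx

end Pool.Agent.H333.MY
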